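import Pool.Agent.Lib.H89TF.J

/-!
# H89TF, file A: the sets `T` such that every set of edges with degrees 0, 2 outside `T` has degree sum
`< 2 |T|` on `T`
-/

set_option autoImplicit false
set_option linter.unusedSectionVars false

namespace H89TF

open Finset

variable {V : Type*} [Fintype V] [DecidableEq V]

/-- `T` is critical: every `F ⊆ E` with degrees `0` or `2` outside `T` has degree sum `< 2 |T|` on `T`. -/
def TG (E : Finset (Sym2 V)) (T : Finset V) : Prop :=
  ∀ F, FF E T F → ∑ v ∈ T, (dg F v - 2) < 0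

/-- `W` is covered by disjoint cycles of `E`. -/
def Cv (E : Finset (Sym2 V)) (W : Finset V) : Prop :=
  ∃ F ⊆ E, (∀ v, dg F v = 0 ∨ dg F v = 2) ∧ ∀ v ∈ W, dg F v = 2

theorem sum_dg {F : Finset (Sym2 V)} (hF : ∀ v, s(v, v) ∉ F) : ∑ v, dg F v = 2 * F.card := by
  induction F using Finset.induction_on with
  | empty => simp [dg]
  | insert e F he ih =>
    have h1 : ∀ v, dg (insert e F) v = dg F v + (if v ∈ e then 1 else 0) := dg_insert he
    simp_rw [h1]
    rw [sum_add_distrib, ih (fun v hv => hF v (mem_insert_of_mem hv)), card_insert_of_notMem he]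
    induction e using Sym2.ind with
    | _ x y =>
      have hxy : x ≠ y := by
        rintro rfl
        exact hF _ (mem_insert_self _ _)
      have h2 : (univ.filter fun v => v ∈ s(x, y)) = {x, y} := by
        ext v
        simp [Sym2.mem_iff]
      rw [← sum_filter, h2, sum_pair hxy]
      push_cast
      ring

theorem even_sum {E : Finset (Sym2 V)} (hE : ∀ v, s(v, v) ∉ E) {W : Finset V} {F : Finset (Sym2 V)}
    (h : FF E W F) : ∃ k : ℤ, ∑ v ∈ W, (dg F v - 2) = 2 * k := by
  have h1 := sum_dg (F := F) (fun v hv => hE v (h.1 hv))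
  have h2 : ∑ v, dg F v = ∑ v ∈ W, dg F v + ∑ v ∈ univ \ W, dg F v := by
    rw [add_comm]
    exact (sum_sdiff (subset_univ W)).symm
  have h3 : ∃ k : ℤ, ∑ v ∈ univ \ W, dg F v = 2 * k := by
    refine ⟨∑ v ∈ univ \ W, (if dg F v = 0 then 0 else 1), ?_⟩
    rw [mul_sum]
    refine sum_congr rfl fun v hv => ?_
    rcases h.2 v (mem_sdiff.1 hv).2 with h | h <;> rw [h] <;> norm_num
  obtain ⟨k, hk⟩ := h3
  refine ⟨F.card - k - W.card, ?_⟩
  rw [sum_sub_distrib, sum_const, nsmul_eq_mul]
  linarith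

/-- The surplus. -/
def sp (W : Finset V) (F : Finset (Sym2 V)) : ℤ := ∑ v ∈ W, max (dg F v - 2) 0

theorem sp_nonneg (W : Finset V) (F : Finset (Sym2 V)) : 0 ≤ sp W F :=
  sum_nonneg fun _ _ => le_max_right _ _

/-- comparison of the surplus: `x` in `W` has smaller excess, all others no larger. -/
theorem sp_lt {W : Finset V} {F F' : Finset (Sym2 V)} {x : V} (hx : x ∈ W) (h2 : 2 < dg F x)
    (hlt : dg F' x < dg F x) (h : ∀ v ∈ W, dg F' v ≤ dg F v ∨ dg F' v ≤ 2) : sp W F' < sp W F := by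
  refine sum_lt_sum (fun v hv => ?_) ⟨x, hx, ?_⟩
  · rcases h v hv with h | h
    · exact max_le_max (by omega) le_rfl
    · exact max_le ((by omega : dg F' v - 2 ≤ 0).trans (le_max_right _ _)) (le_max_right _ _)
  · have h1 : max (dg F x - 2) 0 = dg F x - 2 := max_eq_left (by omega)
    rw [h1]
    exact max_lt (by omega) (by omega)

theorem sum_two {W : Finset V} {f g : V → ℤ} {u w : V} (hu : u ∈ W) (hw : w ∈ W) {d δ : ℤ}
    (h : ∀ v ∈ W, g v = f v + (if v = u then d else 0) + (if v = w then δ else 0)) :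
    ∑ v ∈ W, (g v - 2) = ∑ v ∈ W, (f v - 2) + d + δ := by
  have h1 : ∀ v ∈ W, g v - 2 = (f v - 2) + (if v = u then d else 0) + (if v = w then δ else 0) := by
    intro v hv
    rw [h v hv]
    ring
  rw [sum_congr rfl h1, sum_add_distrib, sum_add_distrib, sum_ite_eq' W u, sum_ite_eq' W w,
    if_pos hu, if_pos hw]

/-- (A), first part: with minimal surplus and `z(W) ≥ 0`, if `W` minus the vertices of positive surplus
is coverable (by `F0`) then `z(W) = 0`. -/
theorem A1 {E : Finset (Sym2 V)} (hE : ∀ v, s(v, v) ∉ E) {W : Finset V} {F F0 : Finset (Sym2 V)}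
    (h : FF E W F) (hs : 0 ≤ ∑ v ∈ W, (dg F v - 2))
    (hmin : ∀ F', FF E W F' → 0 ≤ ∑ v ∈ W, (dg F' v - 2) → sp W F ≤ sp W F')
    (h0 : FF E W F0) (h01 : ∀ v ∈ W, dg F0 v ≤ 2) (h02 : ∀ v ∈ W, dg F v ≤ 2 → dg F0 v = 2)
    {y : V} (hy : y ∈ W) (hy2 : 2 < dg F y) : ∑ v ∈ W, (dg F v - 2) = 0 := by
  obtain ⟨F', hF', w, hw, δ, hδ, hd⟩ := exch hE h h0 hy (d := -1) (Or.inr ⟨rfl, by
    have := h01 y hy
    omega⟩)
  have hsum := sum_two (f := dg F) (g := dg F') hy hw hd
  have hdy := hd y hy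
  rw [if_pos rfl] at hdy
  rcases hδ with ⟨rfl, hlt⟩ | ⟨rfl, hlt⟩
  · exfalso
    have hwy : w ≠ y := by
      rintro rfl
      rw [if_pos rfl] at hlt
      have := h01 w hw
      omega
    rw [if_neg hwy] at hlt
    rw [if_neg (Ne.symm hwy)] at hdy
    have h3 := h01 w hw
    have h4 := hmin F' hF' (by rw [hsum]; omega)
    have h5 := sp_lt (F' := F') hy hy2 (by omega) (fun v hv => by
      by_cases hvw : v = w
      · subst hvw
        right
        rw [hd v hv, if_neg hwy, if_pos rfl]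
        omega
      · left
        rw [hd v hv, if_neg hvw]
        split_ifs <;> omega)
    omega
  · by_contra hne
    obtain ⟨k, hk⟩ := even_sum hE h
    have h4 := hmin F' hF' (by rw [hsum]; omega)
    have h5 := sp_lt (F' := F') hy hy2 (by split_ifs at hdy <;> omega) (fun v hv => by
      left
      rw [hd v hv]
      split_ifs <;> omega)
    omega

/-- (A). -/
theorem A {E : Finset (Sym2 V)} (hE : ∀ v, s(v, v) ∉ E) {W : Finset V} (hc : ¬ Cv E W) (ht : ¬ TG E W) :
    ∃ F, FF E W F ∧ 0 ≤ ∑ v ∈ W, (dg F v - 2) ∧ (∃ y ∈ W, 2 < dg F y) ∧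
      ¬ Cv E (W.filter fun v => dg F v ≤ 2) := by
  classical
  -- minimal surplus
  have hex : ∃ n : ℕ, ∃ F, FF E W F ∧ 0 ≤ ∑ v ∈ W, (dg F v - 2) ∧ sp W F = n := by
    unfold TG at ht
    push Not at ht
    obtain ⟨F, h1, h2⟩ := ht
    exact ⟨(sp W F).toNat, F, h1, h2, (Int.toNat_of_nonneg (sp_nonneg W F)).symm⟩
  obtain ⟨F, h, hs, hn⟩ := Nat.find_spec hex
  have hmin : ∀ F', FF E W F' → 0 ≤ ∑ v ∈ W, (dg F' v - 2) → sp W F ≤ sp W F' := by
    intro F' h1 h2
    rw [hn]
    have h3 := Nat.find_min' hex ⟨F', h1, h2, (Int.toNat_of_nonneg (sp_nonneg W F')).symm⟩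
    have h4 := sp_nonneg W F'
    omega
  have hpos : ∃ y ∈ W, 2 < dg F y := by
    by_contra hcon
    push Not at hcon
    refine hc ⟨F, h.1, ?_, ?_⟩
    · intro v
      by_cases hv : v ∈ W
      · right
        have h1 : ∑ v ∈ W, (dg F v - 2) = 0 := le_antisymm (sum_nonpos fun v hv => by
          have := hcon v hv
          omega) hs
        have h2 := (sum_eq_zero_iff_of_nonpos (fun v hv => by
          have := hcon v hv
          omega)).1 h1 v hv
        omega
      · exact h.2 v hv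
    · intro v hv
      have h1 : ∑ v ∈ W, (dg F v - 2) = 0 := le_antisymm (sum_nonpos fun v hv => by
        have := hcon v hv
        omega) hs
      have h2 := (sum_eq_zero_iff_of_nonpos (fun v hv => by
        have := hcon v hv
        omega)).1 h1 v hv
      omega
  refine ⟨F, h, hs, hpos, ?_⟩
  rintro ⟨F0, hF0, h01, h02⟩
  have h0 : FF E W F0 := ⟨hF0, fun v _ => h01 v⟩
  have h01' : ∀ v ∈ W, dg F0 v ≤ 2 := fun v _ => by rcases h01 v with h | h <;> omega
  have h02' : ∀ v ∈ W, dg F v ≤ 2 → dg F0 v = 2 := fun v hv hv2 => h02 v (mem_filter.2 ⟨hv, hv2⟩)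
  obtain ⟨y, hy, hy2⟩ := hpos
  have hz := A1 hE h hs hmin h0 h01' h02' hy hy2
  -- a vertex of negative value
  obtain ⟨u, hu, hu2⟩ : ∃ u ∈ W, dg F u < 2 := by
    by_contra hcon
    push Not at hcon
    have h2 := (sum_eq_zero_iff_of_nonneg (fun v hv => by
      have := hcon v hv
      omega)).1 hz y hy
    omega
  have hu0 := h02' u hu (by omega)
  obtain ⟨F', hF', w, hw, δ, hδ, hd⟩ := exch hE h h0 hu (d := 1) (Or.inl ⟨rfl, by omega⟩)
  have hsum := sum_two (f := dg F) (g := dg F') hu hw hd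
  rcases hδ with ⟨rfl, hlt⟩ | ⟨rfl, hlt⟩
  · -- both up
    have hw2 : dg F w ≤ 1 := by
      have h3 := h01' w hw
      have h4 := h02' w hw
      by_contra hcon
      split_ifs at hlt with h5
      · subst h5
        omega
      · omega
    have hsp : ∀ v ∈ W, dg F' v ≤ dg F v ∨ dg F' v ≤ 2 := by
      intro v hv
      have h3 := h01' w hw
      have e := hd v hv
      by_cases hvu : v = u
      · right
        subst v
        by_cases hwu : w = u
        · subst hwu
          rw [if_pos rfl] at e hlt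
          omega
        · rw [if_pos rfl, if_neg (Ne.symm hwu)] at e
          omega
      · by_cases hvw : v = w
        · right
          subst v
          rw [if_neg hvu, if_pos rfl] at e
          omega
        · left
          rw [if_neg hvu, if_neg hvw] at e
          omega
    have hle : sp W F' ≤ sp W F := by
      refine sum_le_sum fun v hv => ?_
      rcases hsp v hv with h | h
      · exact max_le_max (by omega) le_rfl
      · exact max_le ((by omega : dg F' v - 2 ≤ 0).trans (le_max_right _ _)) (le_max_right _ _)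
    have hy' : dg F' y = dg F y := by
      rw [hd y hy, if_neg, if_neg] <;> [ring; skip; skip] <;> rintro rfl <;> omega
    have h5 := A1 hE hF' (by rw [hsum]; omega) (fun F'' h1 h2 => hle.trans (hmin F'' h1 h2)) h0 h01'
      (fun v hv hv2 => by
        refine h02' v hv ?_
        rw [hd v hv] at hv2
        split_ifs at hv2 <;> omega) hy (by omega)
    omega
  · -- one up, one down
    have hwu : w ≠ u := by
      rintro rfl
      rw [if_pos rfl] at hlt
      omega
    rw [if_neg hwu] at hlt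
    have hw2 : 2 < dg F w := by
      by_contra hcon
      have := h02' w hw (by omega)
      omega
    have hdw := hd w hw
    rw [if_neg hwu, if_pos rfl] at hdw
    have h4 := hmin F' hF' (by rw [hsum]; omega)
    have h5 := sp_lt (F' := F') hw hw2 (by omega) (fun v hv => by
      by_cases hvu : v = u
      · subst hvu
        right
        rw [hd v hv, if_pos rfl, if_neg (Ne.symm hwu)]
        omega
      · left
        rw [hd v hv, if_neg hvu]
        split_ifs <;> omega)
    omega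

/-- (B). -/
theorem B {E : Finset (Sym2 V)} (hE : ∀ v, s(v, v) ∉ E) : ∀ (n : ℕ) (W : Finset V), W.card = n →
    ¬ Cv E W → ∃ T ⊆ W, TG E T := by
  intro n
  induction n using Nat.strong_induction_on with
  | _ n ih =>
  intro W hn hc
  by_cases ht : TG E W
  · exact ⟨W, Subset.rfl, ht⟩
  · obtain ⟨F, -, -, ⟨y, hy, hy2⟩, h⟩ := A hE hc ht
    obtain ⟨T, hT, hT2⟩ := ih _ (by
      rw [← hn]
      refine card_lt_card ?_
      rw [ssubset_iff_of_subset (filter_subset _ _)]
      refine ⟨y, hy, fun h1 => ?_⟩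
      have := (mem_filter.1 h1).2
      omega) _ rfl h
    exact ⟨T, hT.trans (filter_subset _ _), hT2⟩

theorem TG_not_cv {E : Finset (Sym2 V)} {T W : Finset V} (hTW : T ⊆ W) (hT : TG E T) : ¬ Cv E W := by
  rintro ⟨F, hF, h1, h2⟩
  have h3 := hT F ⟨hF, fun v _ => h1 v⟩
  rw [sum_congr rfl fun v hv => by rw [h2 v (hTW hv)]] at h3
  simp at h3

theorem low (W : Finset V) (F : Finset (Sym2 V)) : 0 ≤ ∑ v ∈ W, (dg F v - 2) + 2 * W.card := by
  rw [sum_sub_distrib, sum_const, nsmul_eq_mul]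
  have : 0 ≤ ∑ v ∈ W, dg F v := sum_nonneg fun v _ => dg_nonneg F v
  linarith

/-- One step of DROP. -/
theorem drop1 {E : Finset (Sym2 V)} (hE : ∀ v, s(v, v) ∉ E) {W T : Finset V} (hTW : T ⊆ W)
    {F : Finset (Sym2 V)} (hF : FF E W F) (h2 : ∀ v ∈ W \ T, dg F v ≤ 2)
    (hk : (((W \ T).filter fun v => dg F v = 1).card : ℤ) ≤ ∑ v ∈ T, (dg F v - 2))
    {v : V} (hv : v ∈ W \ T) (hv1 : dg F v = 1) :
    ∃ F', FF E W F' ∧ ∑ v ∈ W, (dg F' v - 2) = ∑ v ∈ W, (dg F v - 2) - 2 ∧
      (∀ v ∈ W \ T, dg F' v ≤ 2) ∧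
      (((W \ T).filter fun v => dg F' v = 1).card : ℤ) ≤ ∑ v ∈ T, (dg F' v - 2) := by
  have hvW := (mem_sdiff.1 hv).1
  have hvT := (mem_sdiff.1 hv).2
  have h0 : FF E W (∅ : Finset (Sym2 V)) := ⟨empty_subset _, fun v _ => Or.inl (dg_empty v)⟩
  obtain ⟨F', hF', w, hw, δ, hδ, hd⟩ := exch hE hF h0 hvW (d := -1) (Or.inr ⟨rfl, by
    rw [dg_empty]; omega⟩)
  have hn' := dg_nonneg F
  rcases hδ with ⟨rfl, hlt⟩ | ⟨rfl, hlt⟩
  · exfalso
    rw [dg_empty] at hlt
    have h3 := hn' w
    split_ifs at hlt with h4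
    · subst h4
      omega
    · omega
  · rw [dg_empty] at hlt
    have hwv : w ≠ v := by
      rintro rfl
      rw [if_pos rfl] at hlt
      omega
    rw [if_neg hwv] at hlt
    have hsum := sum_two (f := dg F) (g := dg F') hvW hw hd
    have hdv := hd v hvW
    rw [if_pos rfl, if_neg (Ne.symm hwv)] at hdv
    have hdw := hd w hw
    rw [if_neg hwv, if_pos rfl] at hdw
    have hdo : ∀ u ∈ W, u ≠ v → u ≠ w → dg F' u = dg F u := by
      intro u hu h5 h6
      rw [hd u hu, if_neg h5, if_neg h6]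
      ring
    refine ⟨F', hF', by rw [hsum]; ring, fun u hu => ?_, ?_⟩
    · have h3 := h2 u hu
      rw [hd u (mem_sdiff.1 hu).1]
      split_ifs <;> omega
    · have hT : ∀ u ∈ T, dg F' u - 2 = (dg F u - 2) + (if u = w then -1 else 0) := by
        intro u hu
        have huv : u ≠ v := fun h => hvT (h ▸ hu)
        rw [hd u (hTW hu), if_neg huv]
        ring
      rw [sum_congr rfl hT, sum_add_distrib, sum_ite_eq' T w]
      have hvf : v ∈ (W \ T).filter fun v => dg F v = 1 := mem_filter.2 ⟨hv, hv1⟩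
      have hc := card_erase_of_mem hvf
      have hc1 : 0 < ((W \ T).filter fun v => dg F v = 1).card := card_pos.2 ⟨v, hvf⟩
      by_cases hwT : w ∈ T
      · rw [if_pos hwT]
        have hsub : ((W \ T).filter fun v => dg F' v = 1) ⊆
            ((W \ T).filter fun v => dg F v = 1).erase v := by
          intro u hu
          obtain ⟨hu1, hu2⟩ := mem_filter.1 hu
          have huv : u ≠ v := by
            rintro rfl
            omega
          have huw : u ≠ w := by
            rintro rfl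
            exact (mem_sdiff.1 hu1).2 hwT
          rw [mem_erase, mem_filter]
          exact ⟨huv, hu1, by rw [← hdo u (mem_sdiff.1 hu1).1 huv huw]; exact hu2⟩
        have := card_le_card hsub
        omega
      · rw [if_neg hwT]
        have hsub : ((W \ T).filter fun v => dg F' v = 1) ⊆
            insert w (((W \ T).filter fun v => dg F v = 1).erase v) := by
          intro u hu
          obtain ⟨hu1, hu2⟩ := mem_filter.1 hu
          have huv : u ≠ v := by
            rintro rfl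
            omega
          rw [mem_insert, mem_erase, mem_filter]
          by_cases huw : u = w
          · exact Or.inl huw
          · exact Or.inr ⟨huv, hu1, by rw [← hdo u (mem_sdiff.1 hu1).1 huv huw]; exact hu2⟩
        have h5 := card_le_card hsub
        have h6 := card_insert_le w (((W \ T).filter fun v => dg F v = 1).erase v)
        omega

/-- DROP: make the degrees `0`, `2` on `W \ T`. -/
theorem drop {E : Finset (Sym2 V)} (hE : ∀ v, s(v, v) ∉ E) {W T : Finset V} (hTW : T ⊆ W) :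
    ∀ (n : ℕ) (F : Finset (Sym2 V)), ∑ v ∈ W, (dg F v - 2) + 2 * W.card ≤ n → FF E W F →
    (∀ v ∈ W \ T, dg F v ≤ 2) →
    (((W \ T).filter fun v => dg F v = 1).card : ℤ) ≤ ∑ v ∈ T, (dg F v - 2) → ¬ TG E T := by
  classical
  intro n
  induction n using Nat.strong_induction_on with
  | _ n ih =>
  intro F hn hF h2 hk
  by_cases hex : ∃ v ∈ W \ T, dg F v = 1
  · obtain ⟨v, hv, hv1⟩ := hex
    obtain ⟨F', h3, h4, h5, h6⟩ := drop1 hE hTW hF h2 hk hv hv1
    have h7 := low W F'
    exact ih (n - 2) (by omega) F' (by omega) h3 h5 h6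
  · push Not at hex
    intro hT
    have h3 := hT F ⟨hF.1, fun v hv => ?_⟩
    · have h4 : (0 : ℤ) ≤ (((W \ T).filter fun v => dg F v = 1).card : ℤ) := by positivity
      omega
    · by_cases hvW : v ∈ W
      · have h5 := h2 v (mem_sdiff.2 ⟨hvW, hv⟩)
        have h6 := hex v (mem_sdiff.2 ⟨hvW, hv⟩)
        have h7 := dg_nonneg F v
        omega
      · exact hF.2 v hvW

/-- (R'). -/
theorem Rp {E : Finset (Sym2 V)} (hE : ∀ v, s(v, v) ∉ E) {W : Finset V} (hW : ¬ TG E W)
    (hex : ∃ T ⊆ W, TG E T) : ∃ T1 ⊆ W, TG E T1 ∧ ∀ T ⊆ W, TG E T → ∃ r ∈ W \ T1, r ∉ T := by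
  classical
  obtain ⟨T', hT', hT'2⟩ := hex
  obtain ⟨F, hF, hs, -, hP⟩ := A hE (TG_not_cv hT' hT'2) hW
  obtain ⟨T1, h1, h2⟩ := B hE _ _ rfl hP
  refine ⟨T1, h1.trans (filter_subset _ _), h2, fun T hTW hT => ?_⟩
  by_contra hcon
  push Not at hcon
  have hle : ∀ v ∈ W \ T, dg F v ≤ 2 := by
    intro v hv
    by_cases h3 : v ∈ T1
    · exact (mem_filter.1 (h1 h3)).2
    · exact absurd (hcon v (mem_sdiff.2 ⟨(mem_sdiff.1 hv).1, h3⟩)) (mem_sdiff.1 hv).2
  refine drop hE hTW _ F (Int.toNat_of_nonneg (low W F)).ge hF hle ?_ hT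
  have h3 : ∑ v ∈ W, (dg F v - 2) = ∑ v ∈ T, (dg F v - 2) + ∑ v ∈ W \ T, (dg F v - 2) := by
    rw [add_comm]
    exact (sum_sdiff hTW).symm
  have h4 : (((W \ T).filter fun v => dg F v = 1).card : ℤ) ≤ ∑ v ∈ W \ T, (2 - dg F v) := by
    rw [card_filter]
    push_cast
    refine sum_le_sum fun v hv => ?_
    have h5 := hle v hv
    split_ifs <;> omega
  have h5 : ∑ v ∈ W \ T, (2 - dg F v) = - ∑ v ∈ W \ T, (dg F v - 2) := by
    rw [← sum_neg_distrib]
    exact sum_congr rfl fun v _ => by ring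
  omega

/-- `TG` decreases in `E`. -/
theorem TG_anti {E E' : Finset (Sym2 V)} (h : E ⊆ E') {T : Finset V} (hT : TG E' T) : TG E T :=
  fun F hF => hT F ⟨hF.1.trans h, hF.2⟩

/-- No critical set: a 2-factor. -/
theorem two_factor {E : Finset (Sym2 V)} (hE : ∀ v, s(v, v) ∉ E) (h : ∀ T, ¬ TG E T) :
    ∃ F ⊆ E, ∀ v, dg F v = 2 := by
  by_contra hcon
  obtain ⟨T, -, hT⟩ := B hE _ univ rfl (by
    rintro ⟨F, h1, -, h2⟩
    exact hcon ⟨F, h1, fun v => h2 v (mem_univ v)⟩)
  exact h T hT

end H89TF
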