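import Pool.Agent.Lib.H89TF.A
import Pool.Agent.Lib.H8F.Def

/-!
# H89TF, file D: in a 2-connected graph the critical sets are disconnected
-/

set_option autoImplicit false
set_option linter.unusedSectionVars false

namespace H89TF

open Finset H98M

variable {V : Type*} [Fintype V] [DecidableEq V]

theorem dg_eq_zero {F : Finset (Sym2 V)} {v : V} (h : ∀ e ∈ F, v ∉ e) : dg F v = 0 := by
  unfold dg
  rw [filter_false_of_mem h]
  rfl

theorem exists_edge {W : Finset V} {G : Finset (Sym2 V)} (h : ¬ Disc W G) {S : Finset V} (hS : S.Nonempty)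
    (hSW : S ⊆ W) (hne : S ≠ W) : ∃ x ∈ S, ∃ y ∈ W, y ∉ S ∧ s(x, y) ∈ G := by
  by_contra hcon
  push Not at hcon
  refine h ⟨S, W \ S, hS, ?_, disjoint_sdiff, union_sdiff_of_subset hSW, fun x hx y hy =>
    hcon x hx y (mem_sdiff.1 hy).1 (mem_sdiff.1 hy).2⟩
  rw [nonempty_iff_ne_empty]
  intro h1
  exact hne (Subset.antisymm hSW (sdiff_eq_empty_iff_subset.1 h1))

/-- A connected set `T` has at least `|T| - 1` edges. -/
theorem tree {T : Finset V} {G : Finset (Sym2 V)} (h : ¬ Disc T G) (hT : T.Nonempty) :
    ∀ k : ℕ, k < T.card → ∃ S ⊆ T, S.card = k + 1 ∧ ∃ F ⊆ G, (∀ e ∈ F, ∀ v ∈ e, v ∈ S) ∧ F.card = k := by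
  intro k
  induction k with
  | zero =>
    intro _
    obtain ⟨t, ht⟩ := hT
    exact ⟨{t}, singleton_subset_iff.2 ht, by simp, ∅, empty_subset _, by simp, by simp⟩
  | succ k ih =>
    intro hk
    obtain ⟨S, hS, hSc, F, hF, hFS, hFc⟩ := ih (by omega)
    obtain ⟨x, hx, y, hy, hyS, hxy⟩ := exists_edge h (card_pos.1 (by omega)) hS (by
      rintro rfl
      omega)
    have hn : s(x, y) ∉ F := fun h1 => hyS (hFS _ h1 y (Sym2.mem_mk_right _ _))
    refine ⟨insert y S, insert_subset hy hS, by rw [card_insert_of_notMem hyS, hSc],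
      insert s(x, y) F, insert_subset hxy hF, ?_, by rw [card_insert_of_notMem hn, hFc]⟩
    intro e he v hv
    rcases mem_insert.1 he with rfl | he
    · rcases Sym2.mem_iff.1 hv with rfl | rfl
      · exact mem_insert_of_mem hx
      · exact mem_insert_self _ _
    · exact mem_insert_of_mem (hFS e he v hv)

/-- Good: an arc from `u` to `T` inside `S` and outside the edge `e0`. -/
def Arc (G : Finset (Sym2 V)) (e0 : Sym2 V) (T S : Finset V) (u : V) : Prop :=
  ∃ F ⊆ G.erase e0, (∀ e ∈ F, ∀ x ∈ e, x ∈ S) ∧ (∀ e ∈ F, ∃ x ∈ e, x ∉ T) ∧ dg F u = 1 ∧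
    (∀ x, x ∉ T → x ≠ u → dg F x = 0 ∨ dg F x = 2) ∧ ∑ x ∈ T, dg F x = 1

theorem arc_step {G : Finset (Sym2 V)} {e0 : Sym2 V} {T S : Finset V} (hTS : T ⊆ S)
    (h : ∀ u ∈ S, u ∉ T → Arc G e0 T S u) {x u : V} (hx : x ∈ S) (hu : u ∉ S)
    (hxu : s(x, u) ∈ G.erase e0) : Arc G e0 T (insert u S) u := by
  have huT : u ∉ T := fun h1 => hu (hTS h1)
  have hxu' : x ≠ u := by
    rintro rfl
    exact hu hx
  by_cases hxT : x ∈ T
  · have hd := fun v => dg_insert (notMem_empty s(x, u)) v
    refine ⟨insert s(x, u) ∅, insert_subset hxu (empty_subset _), ?_, ?_, ?_, ?_, ?_⟩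
    · intro e he v hv
      rcases mem_insert.1 he with rfl | he
      · rcases Sym2.mem_iff.1 hv with rfl | rfl
        · exact mem_insert_of_mem hx
        · exact mem_insert_self _ _
      · exact absurd he (notMem_empty _)
    · intro e he
      rcases mem_insert.1 he with rfl | he
      · exact ⟨u, Sym2.mem_mk_right _ _, huT⟩
      · exact absurd he (notMem_empty _)
    · rw [hd, dg_empty, if_pos (Sym2.mem_mk_right _ _)]
      ring
    · intro y hy hyu
      left
      rw [hd, dg_empty, if_neg]
      · ring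
      · rw [Sym2.mem_iff]
        rintro (rfl | rfl)
        · exact hy hxT
        · exact hyu rfl
    · have h1 : ∀ y ∈ T, dg (insert s(x, u) ∅) y = if y = x then 1 else 0 := by
        intro y hy
        rw [hd, dg_empty]
        by_cases h2 : y = x
        · subst h2
          rw [if_pos (Sym2.mem_mk_left _ _), if_pos rfl]
          ring
        · rw [if_neg, if_neg h2]
          · ring
          · rw [Sym2.mem_iff]
            rintro (rfl | rfl)
            · exact h2 rfl
            · exact huT hy
      rw [sum_congr rfl h1, sum_ite_eq' T x, if_pos hxT]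
  · obtain ⟨F, hF, h1, h2, h3, h4, h5⟩ := h x hx hxT
    have hn : s(x, u) ∉ F := fun h6 => hu (h1 _ h6 u (Sym2.mem_mk_right _ _))
    have hd := fun v => dg_insert hn v
    have h0 : dg F u = 0 := dg_eq_zero fun e he hue => hu (h1 e he u hue)
    refine ⟨insert s(x, u) F, insert_subset hxu hF, ?_, ?_, ?_, ?_, ?_⟩
    · intro e he v hv
      rcases mem_insert.1 he with rfl | he
      · rcases Sym2.mem_iff.1 hv with rfl | rfl
        · exact mem_insert_of_mem hx
        · exact mem_insert_self _ _
      · exact mem_insert_of_mem (h1 e he v hv)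
    · intro e he
      rcases mem_insert.1 he with rfl | he
      · exact ⟨u, Sym2.mem_mk_right _ _, huT⟩
      · exact h2 e he
    · rw [hd, h0, if_pos (Sym2.mem_mk_right _ _)]
      ring
    · intro y hy hyu
      rw [hd]
      by_cases hyx : y = x
      · subst hyx
        rw [if_pos (Sym2.mem_mk_left _ _), h3]
        right
        ring
      · rw [if_neg]
        · have := h4 y hy hyx
          omega
        · rw [Sym2.mem_iff]
          tauto
    · rw [← h5]
      refine sum_congr rfl fun y hy => ?_
      rw [hd, if_neg]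
      · ring
      · rw [Sym2.mem_iff]
        rintro (rfl | rfl)
        · exact hxT hy
        · exact huT hy

/-- An arc from `v` back to `T`, outside the edge `tv`. -/
theorem arc {G : Finset (Sym2 V)} (hV : 3 ≤ Fintype.card V) (hG : H8F.TC G) {T : Finset V} {t v : V}
    (ht : t ∈ T) (hv : v ∉ T) : Arc G s(t, v) T univ v := by
  have key : ∀ k : ℕ, ∃ S, T ⊆ S ∧ (∀ u ∈ S, u ∉ T → Arc G s(t, v) T S u) ∧ (v ∈ S ∨ k ≤ S.card) := by
    intro k
    induction k with
    | zero => exact ⟨T, Subset.rfl, fun u h1 h2 => absurd h1 h2, Or.inr (Nat.zero_le _)⟩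
    | succ k ih =>
      obtain ⟨S, hTS, h1, h2⟩ := ih
      by_cases hvS : v ∈ S
      · exact ⟨S, hTS, h1, Or.inl hvS⟩
      · rcases h2 with h2 | h2
        · exact absurd h2 hvS
        obtain ⟨x, hx, u, hu, hxu⟩ : ∃ x ∈ S, ∃ u, u ∉ S ∧ s(x, u) ∈ G.erase s(t, v) := by
          by_contra hcon
          push Not at hcon
          by_cases hS : S = {t}
          · -- erase `v`
            refine hG.2 v ⟨{t}, (univ.erase v).erase t, singleton_nonempty t, ?_, ?_, ?_, ?_⟩
            · rw [← card_pos, card_erase_of_mem, card_erase_of_mem (mem_univ v), card_univ]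
              · omega
              · rw [mem_erase]
                exact ⟨fun h3 => hv (h3 ▸ ht), mem_univ _⟩
            · rw [disjoint_singleton_left]
              exact notMem_erase _ _
            · rw [← insert_eq, insert_erase]
              rw [mem_erase]
              exact ⟨fun h3 => hv (h3 ▸ ht), mem_univ _⟩
            · intro x hx y hy hxy
              rw [mem_singleton] at hx
              subst hx
              obtain ⟨hy1, hy2⟩ := mem_erase.1 hy
              refine hcon x (hTS ht) y (by rw [hS, mem_singleton]; exact hy1) (mem_erase.2 ⟨?_, hxy⟩)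
              intro h3
              rcases Sym2.eq_iff.1 h3 with ⟨-, h3⟩ | ⟨h3, h4⟩
              · exact (mem_erase.1 hy2).1 h3
              · exact hv (h3 ▸ ht)
          · -- erase `t`
            refine hG.2 t ⟨S.erase t, univ \ S, ?_, ⟨v, mem_sdiff.2 ⟨mem_univ v, hvS⟩⟩, ?_, ?_, ?_⟩
            · rw [nonempty_iff_ne_empty]
              intro h3
              rw [erase_eq_empty_iff] at h3
              rcases h3 with h3 | h3
              · exact absurd (hTS ht) (h3 ▸ notMem_empty t)
              · exact hS h3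
            · exact disjoint_of_subset_left (erase_subset _ _) disjoint_sdiff
            · ext y
              simp only [mem_union, mem_erase, mem_sdiff, mem_univ, true_and, and_true]
              constructor
              · rintro (h3 | h3)
                · exact h3.1
                · rintro rfl
                  exact h3 (hTS ht)
              · intro h3
                by_cases h4 : y ∈ S
                · exact Or.inl ⟨h3, h4⟩
                · exact Or.inr h4
            · intro x hx y hy hxy
              refine hcon x (mem_erase.1 hx).2 y (mem_sdiff.1 hy).2 (mem_erase.2 ⟨?_, hxy⟩)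
              intro h3
              rcases Sym2.eq_iff.1 h3 with ⟨h3, -⟩ | ⟨h3, -⟩
              · exact (mem_erase.1 hx).1 h3
              · exact hvS (h3 ▸ (mem_erase.1 hx).2)
        refine ⟨insert u S, hTS.trans (subset_insert _ _), ?_, Or.inr ?_⟩
        · intro y hy hyT
          rcases mem_insert.1 hy with rfl | hy
          · exact arc_step hTS h1 hx hu hxu
          · obtain ⟨F, h3, h4, h5⟩ := h1 y hy hyT
            exact ⟨F, h3, fun e he z hz => mem_insert_of_mem (h4 e he z hz), h5⟩
        · rw [card_insert_of_notMem hu]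
          omega
  obtain ⟨S, hTS, h1, h2⟩ := key (Fintype.card V + 1)
  rcases h2 with h2 | h2
  · obtain ⟨F, h3, -, h5⟩ := h1 v h2 hv
    exact ⟨F, h3, fun e he z hz => mem_univ z, h5⟩
  · have := card_le_univ S
    omega

/-- In a 2-connected graph all degrees are at least 2. -/
theorem two_le_dg {G : Finset (Sym2 V)} (hV : 3 ≤ Fintype.card V) (hG : H8F.TC G) (hl : ∀ v, s(v, v) ∉ G)
    (v : V) : 2 ≤ dg G v := by
  obtain ⟨x, hx, y, -, hy, hxy⟩ := exists_edge hG.1 (singleton_nonempty v) (subset_univ _) (by
    intro h1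
    have h2 := congrArg card h1
    rw [card_singleton, card_univ] at h2
    omega)
  rw [mem_singleton] at hx hy
  subst hx
  have hxe : x ∈ univ.erase y := mem_erase.2 ⟨Ne.symm hy, mem_univ _⟩
  obtain ⟨x', hx', z, hz, hzx, hxz⟩ := exists_edge (hG.2 y) (singleton_nonempty x)
    (singleton_subset_iff.2 hxe) (by
      intro h1
      have h2 := congrArg card h1
      rw [card_singleton, card_erase_of_mem (mem_univ _), card_univ] at h2
      omega)
  rw [mem_singleton] at hx' hzx
  subst hx'
  have h3 : ({s(x', y), s(x', z)} : Finset (Sym2 V)) ⊆ G.filter fun e => x' ∈ e := by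
    intro e he
    rw [mem_filter]
    rcases mem_insert.1 he with rfl | he
    · exact ⟨hxy, Sym2.mem_mk_left _ _⟩
    · rw [mem_singleton] at he
      subst he
      exact ⟨hxz, Sym2.mem_mk_left _ _⟩
  have h4 := card_le_card h3
  rw [card_pair] at h4
  · unfold dg
    exact_mod_cast h4
  · intro h5
    rcases Sym2.eq_iff.1 h5 with ⟨-, h5⟩ | ⟨h5, -⟩
    · exact (mem_erase.1 hz).1 h5.symm
    · exact hzx h5.symm

theorem dg_union {F F' : Finset (Sym2 V)} (h : Disjoint F F') (v : V) :
    dg (F ∪ F') v = dg F v + dg F' v := by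
  unfold dg
  rw [filter_union, card_union_of_disjoint (disjoint_filter_filter h)]
  push_cast
  ring

/-- (D). -/
theorem disc_of_TG {G : Finset (Sym2 V)} (hV : 3 ≤ Fintype.card V) (hG : H8F.TC G)
    (hl : ∀ v, s(v, v) ∉ G) {T : Finset V} (hT : TG G T) : Disc T G := by
  by_contra hd
  have hTn : T.Nonempty := by
    rw [nonempty_iff_ne_empty]
    rintro rfl
    have := hT ∅ ⟨empty_subset _, fun v _ => Or.inl (dg_empty v)⟩
    simp at this
  by_cases hTu : T = univ
  · have h1 := hT G ⟨Subset.rfl, fun v hv => absurd (hTu ▸ mem_univ v) hv⟩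
    have h2 : 0 ≤ ∑ v ∈ T, (dg G v - 2) := sum_nonneg fun v _ => by
      have := two_le_dg hV hG hl v
      omega
    omega
  obtain ⟨t, ht, v, -, hv, htv⟩ := exists_edge hG.1 hTn (subset_univ T) hTu
  obtain ⟨F, hF, -, hF2, hF3, hF4, hF5⟩ := arc hV hG ht hv
  have hTc := card_pos.2 hTn
  obtain ⟨S, hS, -, F1, hF1, hF1S, hF1c⟩ := tree hd hTn (T.card - 1) (by omega)
  have hn : s(t, v) ∉ F := fun h1 => notMem_erase _ _ (hF h1)
  have hdj : Disjoint F1 (insert s(t, v) F) := by
    rw [disjoint_left]
    intro e he he'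
    rcases mem_insert.1 he' with rfl | he'
    · exact hv (hS (hF1S _ he v (Sym2.mem_mk_right _ _)))
    · obtain ⟨x, hx, hxT⟩ := hF2 e he'
      exact hxT (hS (hF1S _ he x hx))
  have hdg : ∀ x, dg (F1 ∪ insert s(t, v) F) x = dg F1 x + (dg F x + if x ∈ s(t, v) then 1 else 0) := by
    intro x
    rw [dg_union hdj, dg_insert hn]
  have h0 : ∀ x, x ∉ T → dg F1 x = 0 := fun x hx => dg_eq_zero fun e he hxe => hx (hS (hF1S e he x hxe))
  have h1 := hT (F1 ∪ insert s(t, v) F) ⟨union_subset hF1 (insert_subset htv
    (hF.trans (erase_subset _ _))), ?_⟩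
  · have h2 : ∑ x ∈ T, dg F1 x = 2 * F1.card := by
      rw [← sum_dg (F := F1) (fun v hv => hl v (hF1 hv))]
      exact sum_subset (subset_univ T) fun x _ hx => h0 x hx
    have h3 : ∑ x ∈ T, (if x ∈ s(t, v) then (1 : ℤ) else 0) = 1 := by
      have h4 : ∀ x ∈ T, (if x ∈ s(t, v) then (1 : ℤ) else 0) = if x = t then 1 else 0 := by
        intro x hx
        by_cases h5 : x = t
        · subst h5
          rw [if_pos (Sym2.mem_mk_left _ _), if_pos rfl]
        · rw [if_neg, if_neg h5]
          rw [Sym2.mem_iff]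
          rintro (h6 | h6)
          · exact h5 h6
          · exact hv (h6 ▸ hx)
      rw [sum_congr rfl h4, sum_ite_eq' T t, if_pos ht]
    rw [sum_congr rfl fun x _ => by rw [hdg x]] at h1
    rw [sum_sub_distrib, sum_add_distrib, sum_add_distrib, h2, hF5, h3, sum_const, nsmul_eq_mul, hF1c] at h1
    have h6 : ((T.card - 1 : ℕ) : ℤ) = (T.card : ℤ) - 1 := by omega
    rw [h6] at h1
    linarith
  · intro x hx
    rw [hdg, h0 x hx]
    by_cases hxv : x = v
    · subst hxv
      rw [if_pos (Sym2.mem_mk_right _ _), hF3]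
      right
      ring
    · rw [if_neg]
      · have := hF4 x hx hxv
        omega
      · rw [Sym2.mem_iff]
        rintro (h6 | h6)
        · exact hx (h6 ▸ ht)
        · exact hxv h6

end H89TF
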