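import Pool.Agent.Lib.H89TF.D
import Pool.Agent.Lib.H57F.S
import Pool.Agent.Lib.H30D.C4

/-!
# H89TF, file F: a plane 2-connected subdrawing with a 2-factor (abstract form)
-/

set_option autoImplicit false
set_option linter.unusedSectionVars false

namespace H89TF

open Finset H98P H98Z H98M H63F H30F H8F

variable {V : Type*} [Fintype V] [DecidableEq V]

/-- (*): the critical sets form an acyclic poset, or there are none. -/
theorem ac_TG {G : Finset (Sym2 V)} (hl : ∀ v, s(v, v) ∉ G) (h : ∃ T, TG G T) : AC (Ch (TG G)) := by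
  obtain ⟨T, hT⟩ := h
  refine ac_congr (fun c => ?_) (H57F.ac_ideal (P := TG G) ?_ univ ⟨T, subset_univ T, hT⟩)
  · constructor
    · exact ch_mono fun W hW => hW.2
    · exact ch_mono fun W hW => ⟨subset_univ W, hW⟩
  · intro W hW hex
    obtain ⟨T1, h1, h2, h3⟩ := Rp hl hW hex
    refine ⟨W \ T1, sdiff_subset, ?_, ⟨T1, ?_, h2⟩, ?_⟩
    · obtain ⟨r, hr, -⟩ := h3 T1 h1 h2
      exact ⟨r, hr⟩
    · exact fun x hx => mem_sdiff.2 ⟨h1 hx, fun h4 => (mem_sdiff.1 h4).2 hx⟩
    · intro T' hT' hT'2 hsub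
      obtain ⟨r, hr, hrT⟩ := h3 T' hT' hT'2
      exact hrT (hsub hr)

theorem disc_anti {G G' : Finset (Sym2 V)} (h : G ⊆ G') {W : Finset V} (hW : Disc W G') : Disc W G := by
  obtain ⟨C, D, h1, h2, h3, h4, h5⟩ := hW
  exact ⟨C, D, h1, h2, h3, h4, fun x hx y hy hxy => h5 x hx y hy (h hxy)⟩

theorem tc_mono {G G' : Finset (Sym2 V)} (h : G ⊆ G') (hG : TC G) : TC G' :=
  ⟨fun h1 => hG.1 (disc_anti h h1), fun z h1 => hG.2 z (disc_anti h h1)⟩

theorem loopless {G : Finset (Sym2 V)} (h : G ⊆ LW univ) (v : V) : s(v, v) ∉ G := by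
  intro h1
  have h2 := h h1
  unfold LW at h2
  rw [mem_filter] at h2
  exact h2.2 (Sym2.mk_isDiag_iff.2 rfl)

/-- Every simple drawing has a plane 2-connected subdrawing with a 2-factor (abstract form). -/
theorem plane_two_factor {cross : Sym2 V → Sym2 V → Prop} (hsymm : ∀ e f, cross e f → cross f e)
    (hHD : ∀ W, HD cross W) (hV : 3 ≤ Fintype.card V) :
    ∃ G : Finset (Sym2 V), G ⊆ LW univ ∧ Plane cross G ∧ TC G ∧ Cov G univ := by
  obtain ⟨x, y, hxy⟩ : ∃ x y : V, x ≠ y := by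
    have h1 : 1 < Fintype.card V := by omega
    exact Fintype.exists_pair_of_one_lt_card h1
  obtain ⟨G, -, hG1, hG2, hG3⟩ := functor hsymm hHD ⟨x, y, hxy⟩
    (fun G W => Disc W G ∧ (TC G → TG G W))
    (fun G G' h _ _ _ W hW => ⟨disc_anti h hW.1, fun h1 => TG_anti h (hW.2 (tc_mono h h1))⟩)
    (fun G W _ _ _ hW => hW.1)
  have hl := loopless hG1
  refine ⟨G, hG1, hG2, ?_⟩
  by_cases hT : TC G
  · refine ⟨hT, ?_⟩
    by_cases hex : ∃ T, TG G T
    · exfalso
      refine hG3 (ac_congr (fun c => ?_) (ac_TG hl hex))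
      constructor
      · exact ch_mono fun W hW => ⟨disc_of_TG hV hT hl hW, fun _ => hW⟩
      · exact ch_mono fun W hW => hW.2 hT
    · push Not at hex
      obtain ⟨F, hF, h⟩ := two_factor hl hex
      have h' : ∀ v, H8F.dg F v = 2 := fun v => by
        have := h v
        unfold H89TF.dg at this
        unfold H8F.dg
        exact_mod_cast this
      exact ⟨F, hF, fun v => Or.inr (h' v), fun v _ => h' v⟩
  · exfalso
    refine hG3 (ac_congr (fun c => ?_) (H30D.ac_disc G ?_))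
    · constructor
      · exact ch_mono fun W hW => ⟨hW, fun h => absurd h hT⟩
      · exact ch_mono fun W hW => hW.1
    · by_contra hcon
      push Not at hcon
      exact hT ⟨hcon.1, hcon.2⟩

end H89TF
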