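import Mathlib

/-!
# H89TF, file J: the exchange property for degree sequences, exact on a set `W`

`E` is a finite set of edges without loops. `dg F v` is the degree of `v` in the set of edges `F`.
`FF E W F`: `F ⊆ E` has degrees `0` or `2` outside `W`.
-/

set_option autoImplicit false
set_option linter.unusedSectionVars false

namespace H89TF

open Finset

variable {V : Type*} [Fintype V] [DecidableEq V]

/-- The degree of `v` in the set `F` of edges. -/
def dg (F : Finset (Sym2 V)) (v : V) : ℤ := ((F.filter fun e => v ∈ e).card : ℤ)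

/-- `F ⊆ E` has degrees `0` or `2` outside `W`. -/
def FF (E : Finset (Sym2 V)) (W : Finset V) (F : Finset (Sym2 V)) : Prop :=
  F ⊆ E ∧ ∀ v, v ∉ W → dg F v = 0 ∨ dg F v = 2

theorem dg_nonneg (F : Finset (Sym2 V)) (v : V) : 0 ≤ dg F v := by
  unfold dg
  positivity

theorem dg_empty (v : V) : dg (∅ : Finset (Sym2 V)) v = 0 := by
  simp [dg]

theorem dg_pos {F : Finset (Sym2 V)} {v : V} {e : Sym2 V} (he : e ∈ F) (hv : v ∈ e) : 1 ≤ dg F v := by
  unfold dg
  have : 0 < (F.filter fun e => v ∈ e).card := card_pos.2 ⟨e, mem_filter.2 ⟨he, hv⟩⟩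
  omega

theorem dg_insert {F : Finset (Sym2 V)} {e : Sym2 V} (he : e ∉ F) (v : V) :
    dg (insert e F) v = dg F v + (if v ∈ e then 1 else 0) := by
  unfold dg
  rw [filter_insert]
  split_ifs with h
  · rw [card_insert_of_notMem (fun h1 => he (mem_filter.1 h1).1)]
    push_cast
    ring
  · ring

theorem dg_erase {F : Finset (Sym2 V)} {e : Sym2 V} (he : e ∈ F) (v : V) :
    dg (F.erase e) v = dg F v - (if v ∈ e then 1 else 0) := by
  have h := dg_insert (notMem_erase e F) v
  rw [insert_erase he] at h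
  rw [h]
  ring

theorem exists_of_dg_lt {F F0 : Finset (Sym2 V)} {v : V} (h : dg F v < dg F0 v) :
    ∃ e ∈ F0, e ∉ F ∧ v ∈ e := by
  by_contra hc
  push Not at hc
  have : (F0.filter fun e => v ∈ e).card ≤ (F.filter fun e => v ∈ e).card := by
    refine card_le_card fun e he => ?_
    rw [mem_filter] at he ⊢
    refine ⟨?_, he.2⟩
    by_contra h1
    exact hc e he.1 h1 he.2
  unfold dg at h
  omega

/-- THE WALK. `a` is the active vertex. -/
theorem walk {E : Finset (Sym2 V)} (hE : ∀ v, s(v, v) ∉ E) {W : Finset V} {F0 : Finset (Sym2 V)}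
    (h0 : FF E W F0) (c : V → ℤ) : ∀ (n : ℕ) (F : Finset (Sym2 V)) (a : V), (symmDiff F F0).card = n →
    F ⊆ E → (∀ v, v ≠ a → v ∈ W → dg F v = c v) → (∀ v, v ≠ a → v ∉ W → dg F v = 0 ∨ dg F v = 2) →
    (a ∈ W → dg F a = c a + 1 ∨ dg F a = c a - 1) → (a ∉ W → dg F a = 1 ∨ dg F a = 3) →
    ∃ F', FF E W F' ∧ ∃ w ∈ W, ∃ δ : ℤ, ((δ = 1 ∧ c w < dg F0 w) ∨ (δ = -1 ∧ dg F0 w < c w)) ∧
      ∀ v ∈ W, dg F' v = c v + (if v = w then δ else 0) := by
  intro n
  induction n using Nat.strong_induction_on with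
  | _ n ih =>
  intro F a hn hF h1 h2 h3 h4
  -- removing an edge of `F \ F0` at `a`
  have down : dg F0 a < dg F a → (a ∈ W → dg F a = c a + 1) → ∃ F', FF E W F' ∧ ∃ w ∈ W, ∃ δ : ℤ,
      ((δ = 1 ∧ c w < dg F0 w) ∨ (δ = -1 ∧ dg F0 w < c w)) ∧
      ∀ v ∈ W, dg F' v = c v + (if v = w then δ else 0) := by
    intro hlt hW
    obtain ⟨e, he, he0, hae⟩ := exists_of_dg_lt hlt
    obtain ⟨b, rfl⟩ := Sym2.mem_iff_exists.1 hae
    have hab : b ≠ a := by
      rintro rfl
      exact hE _ (hF he)
    have hd := fun v => dg_erase he v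
    refine ih _ ?_ (F.erase s(a, b)) b rfl ((erase_subset _ _).trans hF) ?_ ?_ ?_ ?_
    · rw [← hn]
      refine card_lt_card ?_
      rw [ssubset_iff_of_subset]
      · refine ⟨s(a, b), ?_, ?_⟩
        · rw [mem_symmDiff]; exact Or.inl ⟨he, he0⟩
        · rw [mem_symmDiff]
          rintro (⟨h, -⟩ | ⟨h, -⟩)
          · exact notMem_erase _ _ h
          · exact he0 h
      · intro f hf
        rw [mem_symmDiff, mem_erase] at hf
        rw [mem_symmDiff]
        rcases hf with ⟨⟨_, h⟩, h'⟩ | ⟨h, h'⟩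
        · exact Or.inl ⟨h, h'⟩
        · refine Or.inr ⟨h, fun h5 => h' ⟨?_, h5⟩⟩
          rintro rfl
          exact he0 h
    · intro v hvb hvW
      rw [hd v]
      by_cases hva : v = a
      · subst hva
        rw [if_pos (Sym2.mem_mk_left _ _), hW hvW]
        ring
      · rw [if_neg (by rw [Sym2.mem_iff]; tauto), h1 v hva hvW]
        ring
    · intro v hvb hvW
      rw [hd v]
      by_cases hva : v = a
      · subst hva
        rw [if_pos (Sym2.mem_mk_left _ _)]
        rcases h4 hvW with h | h <;> omega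
      · rw [if_neg (by rw [Sym2.mem_iff]; tauto)]
        have := h2 v hva hvW
        omega
    · intro hbW
      rw [hd b, if_pos (Sym2.mem_mk_right _ _), h1 b hab hbW]
      exact Or.inr rfl
    · intro hbW
      rw [hd b, if_pos (Sym2.mem_mk_right _ _)]
      have h5 := h2 b hab hbW
      have h6 := dg_pos he (Sym2.mem_mk_right a b)
      omega
  -- adding an edge of `F0 \ F` at `a`
  have up : dg F a < dg F0 a → (a ∈ W → dg F a = c a - 1) → ∃ F', FF E W F' ∧ ∃ w ∈ W, ∃ δ : ℤ,
      ((δ = 1 ∧ c w < dg F0 w) ∨ (δ = -1 ∧ dg F0 w < c w)) ∧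
      ∀ v ∈ W, dg F' v = c v + (if v = w then δ else 0) := by
    intro hlt hW
    obtain ⟨e, he0, he, hae⟩ := exists_of_dg_lt hlt
    obtain ⟨b, rfl⟩ := Sym2.mem_iff_exists.1 hae
    have hab : b ≠ a := by
      rintro rfl
      exact hE _ (h0.1 he0)
    have hd := fun v => dg_insert he v
    refine ih _ ?_ (insert s(a, b) F) b rfl (insert_subset (h0.1 he0) hF) ?_ ?_ ?_ ?_
    · rw [← hn]
      refine card_lt_card ?_
      rw [ssubset_iff_of_subset]
      · refine ⟨s(a, b), ?_, ?_⟩
        · rw [mem_symmDiff]; exact Or.inr ⟨he0, he⟩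
        · rw [mem_symmDiff]
          rintro (⟨_, h⟩ | ⟨_, h⟩)
          · exact h he0
          · exact h (mem_insert_self _ _)
      · intro f hf
        rw [mem_symmDiff, mem_insert] at hf
        rw [mem_symmDiff]
        rcases hf with ⟨h | h, h'⟩ | ⟨h, h'⟩
        · exact absurd (h ▸ he0) h'
        · exact Or.inl ⟨h, h'⟩
        · exact Or.inr ⟨h, fun h5 => h' (Or.inr h5)⟩
    · intro v hvb hvW
      rw [hd v]
      by_cases hva : v = a
      · subst hva
        rw [if_pos (Sym2.mem_mk_left _ _), hW hvW]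
        ring
      · rw [if_neg (by rw [Sym2.mem_iff]; tauto), h1 v hva hvW]
        ring
    · intro v hvb hvW
      rw [hd v]
      by_cases hva : v = a
      · subst hva
        rw [if_pos (Sym2.mem_mk_left _ _)]
        have h5 := h0.2 v hvW
        rcases h4 hvW with h | h <;> omega
      · rw [if_neg (by rw [Sym2.mem_iff]; tauto)]
        have := h2 v hva hvW
        omega
    · intro hbW
      rw [hd b, if_pos (Sym2.mem_mk_right _ _), h1 b hab hbW]
      exact Or.inl rfl
    · intro hbW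
      rw [hd b, if_pos (Sym2.mem_mk_right _ _)]
      have h5 := h2 b hab hbW
      omega
  by_cases haW : a ∈ W
  · -- the stop
    have stop : ∀ δ : ℤ, dg F a = c a + δ → ((δ = 1 ∧ c a < dg F0 a) ∨ (δ = -1 ∧ dg F0 a < c a)) →
        ∃ F', FF E W F' ∧ ∃ w ∈ W, ∃ δ : ℤ,
        ((δ = 1 ∧ c w < dg F0 w) ∨ (δ = -1 ∧ dg F0 w < c w)) ∧
        ∀ v ∈ W, dg F' v = c v + (if v = w then δ else 0) := by
      intro δ hδ hh
      refine ⟨F, ⟨hF, fun v hv => h2 v (fun h => hv (h ▸ haW)) hv⟩, a, haW, δ, hh, fun v hv => ?_⟩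
      by_cases hva : v = a
      · subst hva
        rw [if_pos rfl, hδ]
      · rw [if_neg hva, h1 v hva hv]
        ring
    rcases h3 haW with h | h
    · by_cases h5 : c a < dg F0 a
      · exact stop 1 h (Or.inl ⟨rfl, h5⟩)
      · exact down (by omega) fun _ => h
    · by_cases h5 : dg F0 a < c a
      · exact stop (-1) h (Or.inr ⟨rfl, h5⟩)
      · exact up (by omega) fun _ => h
  · rcases h4 haW with h | h
    · rcases h0.2 a haW with h5 | h5
      · exact down (by omega) fun h6 => absurd h6 haW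
      · exact up (by omega) fun h6 => absurd h6 haW
    · rcases h0.2 a haW with h5 | h5 <;> exact down (by omega) fun h6 => absurd h6 haW

/-- THE EXCHANGE PROPERTY. `d` is a step at `u` from `F` towards `F0`. -/
theorem exch {E : Finset (Sym2 V)} (hE : ∀ v, s(v, v) ∉ E) {W : Finset V} {F F0 : Finset (Sym2 V)}
    (h : FF E W F) (h0 : FF E W F0) {u : V} (hu : u ∈ W) {d : ℤ}
    (hd : (d = 1 ∧ dg F u < dg F0 u) ∨ (d = -1 ∧ dg F0 u < dg F u)) :
    ∃ F', FF E W F' ∧ ∃ w ∈ W, ∃ δ : ℤ,
      ((δ = 1 ∧ dg F w + (if w = u then d else 0) < dg F0 w) ∨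
        (δ = -1 ∧ dg F0 w < dg F w + (if w = u then d else 0))) ∧
      ∀ v ∈ W, dg F' v = dg F v + (if v = u then d else 0) + (if v = w then δ else 0) := by
  rcases hd with ⟨rfl, hlt⟩ | ⟨rfl, hlt⟩
  · obtain ⟨e, he0, he, hae⟩ := exists_of_dg_lt hlt
    obtain ⟨b, rfl⟩ := Sym2.mem_iff_exists.1 hae
    have hab : b ≠ u := by
      rintro rfl
      exact hE _ (h0.1 he0)
    have hd := fun v => dg_insert he v
    refine walk hE h0 (fun v => dg F v + (if v = u then 1 else 0)) _ (insert s(u, b) F) b rfl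
      (insert_subset (h0.1 he0) h.1) ?_ ?_ ?_ ?_
    · intro v hvb hvW
      rw [hd v]
      by_cases hva : v = u
      · subst hva
        rw [if_pos (Sym2.mem_mk_left _ _), if_pos rfl]
      · rw [if_neg (by rw [Sym2.mem_iff]; tauto), if_neg hva]
    · intro v hvb hvW
      have hva : v ≠ u := fun h1 => hvW (h1 ▸ hu)
      rw [hd v, if_neg (by rw [Sym2.mem_iff]; tauto)]
      have := h.2 v hvW
      omega
    · intro hbW
      left
      rw [hd b, if_pos (Sym2.mem_mk_right _ _), if_neg hab]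
      ring
    · intro hbW
      rw [hd b, if_pos (Sym2.mem_mk_right _ _)]
      have := h.2 b hbW
      omega
  · obtain ⟨e, he, he0, hae⟩ := exists_of_dg_lt hlt
    obtain ⟨b, rfl⟩ := Sym2.mem_iff_exists.1 hae
    have hab : b ≠ u := by
      rintro rfl
      exact hE _ (h.1 he)
    have hd := fun v => dg_erase he v
    refine walk hE h0 (fun v => dg F v + (if v = u then -1 else 0)) _ (F.erase s(u, b)) b rfl
      ((erase_subset _ _).trans h.1) ?_ ?_ ?_ ?_
    · intro v hvb hvW
      rw [hd v]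
      by_cases hva : v = u
      · subst hva
        rw [if_pos (Sym2.mem_mk_left _ _), if_pos rfl]
        ring
      · rw [if_neg (by rw [Sym2.mem_iff]; tauto), if_neg hva]
        ring
    · intro v hvb hvW
      have hva : v ≠ u := fun h1 => hvW (h1 ▸ hu)
      rw [hd v, if_neg (by rw [Sym2.mem_iff]; tauto)]
      have := h.2 v hvW
      omega
    · intro hbW
      right
      rw [hd b, if_pos (Sym2.mem_mk_right _ _), if_neg hab]
      ring
    · intro hbW
      rw [hd b, if_pos (Sym2.mem_mk_right _ _)]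
      have h5 := h.2 b hbW
      have h6 := dg_pos he (Sym2.mem_mk_right u b)
      omega

end H89TF
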